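import Pool.Agent.H.MP_9c5c66_al.B

open Pool.Agent.H.MP_9c5c66_al Cardinal

namespace Pool.Agent.Results.MP_9c5c66_al.Cont

theorem result :
    Cardinal.mk {W : Set Alg // (∃ S, W = Mdl S) ∧ V S7 ⊆ W ∧ W ⊆ V S7.adj} = Cardinal.continuum := by
  refine le_antisymm ?_ ?_
  · have := Cardinal.mk_le_of_surjective (f := fun S : ULift.{1} (Set (Tm × Tm)) =>
      (⟨Mdl S.1, S.1, rfl⟩ : {W : Set Alg // ∃ S, W = Mdl S})) fun ⟨_, S, h⟩ => ⟨⟨S⟩, Subtype.ext h.symm⟩
    refine ((Cardinal.mk_subtype_mono fun _ h => h.1).trans this).trans ?_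
    rw [mk_uLift, mk_set, ← lift_continuum.{1, 0}, lift_le, ← two_power_aleph0]
    exact power_le_power_left two_ne_zero mk_le_aleph0
  · let f : ULift.{1} (Set Nat.Primes) →
        {W : Set Alg // (∃ S, W = Mdl S) ∧ V S7 ⊆ W ∧ W ⊆ V S7.adj} := fun X =>
      ⟨Mdl ({e | Sat S7.adj e} ∪ (fun p : Nat.Primes => ε p) '' X.1), ⟨_, rfl⟩, fun A hA e he => hA e <| by
        rcases he with he | ⟨p, -, rfl⟩
        exacts [sub_adj S7 e he, S7_ε p], fun A hA e he => hA e (.inl he)⟩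
    have key : ∀ X (q : Nat.Primes), (G q).adj ∈ (f X).1 ↔ q ∉ X.1 := fun X q => by
      refine ⟨fun h hq => G_not q.2.pos (h _ (.inr ⟨q, hq, rfl⟩)), fun h e he => ?_⟩
      rcases he with he | ⟨p, hp, rfl⟩
      · exact G_mem q.2.pos e he
      · exact G_ε p.2.pos fun hd => h
          (Subtype.ext ((Nat.prime_dvd_prime_iff_eq p.2 q.2).1 hd) ▸ hp)
    have := Cardinal.mk_le_of_injective (f := f) fun X Y h => ULift.ext _ _ (Set.ext fun q => by
      rw [← not_iff_not, ← key, ← key, h])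
    rwa [mk_uLift, mk_set, mk_eq_aleph0, two_power_aleph0, lift_continuum] at this

end Pool.Agent.Results.MP_9c5c66_al.Cont
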